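import Pool.Agent.X312.CQ.Pair

/-!
# A gap law for the intersection numbers of absolute Hodge classes with Lefschetz classes on the
reduction

Let `X` and `Y` be abelian varieties with complex multiplication over the algebraic closure of
`ℚ`, and fix a prime `p`, a place above `p`, and a prime `ℓ ≠ p`. For `Z = X ^ n` let `AH(Y × Z)`
be the space of the absolute Hodge classes on `Y × Z`, of all codimensions, over `ℚ`, and let `R(Y
× Z)` be the subspace of the classes `c` such that the numbers `x · c_ℓ` are rational for all
Lefschetz classes `x` on the reduction of `Y × Z`. Q1 says (in part) that `R(Y × Z) = AH(Y × Z)`.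

Let `Lef(Z)` be the space of the Lefschetz classes on `Z` (in characteristic `0`) with
coefficients in `ℚ_ℓ`. Let `M = (X ^ m, e)` be a direct summand of the Lefschetz motive of `X ^ m`
(in the sense of Milne, with coefficients in `ℚ_ℓ`) which is irreducible, and let `D = dim H(M)`
be its rank. Let `b` be the sum of the Betti numbers of `X`.

**Either all classes** `e c`, `c` **in** `AH(Y × X ^ m)`, **are combinations of classes in** `R(Y
× X ^ m)`, **or for all** `n ≥ 1` **at least**

`(D - 4 (m + 3) b ^ (m + 5) log (n + 1) / n) dim Lef(X ^ n)`

**absolute Hodge classes on** `Y × X ^ n` **are linearly independent modulo the span of** `R(Y × X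
^ n)`. So if one absolute Hodge class on one `Y × X ^ m` has an intersection number with a
Lefschetz class on the reduction which is not rational, then this is so for very large spaces of
absolute Hodge classes on all `Y × X ^ n`, `n` large, of both parities.

By the theorems of Milne Lefschetz classes on abelian varieties are stable under push-forwards, in
all characteristics, and the intersection pairing on them is nondegenerate. So rational Lefschetz
correspondences `a` between `Z` and `Z'` respect `AH`, and they respect `R`: `x · (a c)_ℓ = (a' x)
· c_ℓ`, where `a'` is the transpose of the reduction of `a`, and `a' x` is a Lefschetz class if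
`x` is.

The proof. Let `P = X ^ m` and let `z = e z` be a nonzero element of the span of `AH` modulo the
span of `R` for `P`. If a correspondence `x` has `x z = 0` then `e x e` is not invertible on `M`,
so it is nilpotent, as `M` is irreducible, and the trace of `e x` vanishes; therefore the
dimension of this quotient for `Z` is at least the rank of the trace form `(u, v) ↦ tr (e v u)` on
the correspondences between `P` and `Z`. For `Z = X ^ n` this rank is at least `(D - ε) dim Lef(X
^ n)`, by the log-convexity of the sequence of the numbers `dim Lef(X ^ (2 l))`, by tensor powers,
and by the symmetric group, which excludes small growth. For the other parity `M` is cut out of `X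
^ (m + 1)`.
-/

set_option autoImplicit false

open CategoryTheory AlgebraicGeometry

universe u v w

namespace Pool.Agent.Results.MP_0abd54_ag.RationalityGapLaw

open Pool.Agent.H914 VarClass Obj WeilCohomology
open Pool.Agent.X312.FK (composite IrreducibleIn IndepMod)
open Pool.Agent.X312.FC (CorrData corrRank rankBound)
open Pool.Agent.X312.FM (Family Has IsRingFamily IsNondeg dimOn)
open Pool.Agent.X312.CQ (PairingData)
open Pool.Agent.Y133.Half (pw)

variable {k : Type u} [Field k] {𝒱 : VarClass k} {ops : CycleOps 𝒱}
  {W : WeilCohomology.{u, v} ops}

/-- The sum of the Betti numbers of `X`. -/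
noncomputable def totalBetti (W : WeilCohomology.{u, v} ops) (X : 𝒱.Obj) : ℕ :=
  Module.finrank W.K (W.H X)

/-- **The gap law for rational intersection numbers.** In the intended use the varieties are abelian
varieties, `C Z` is the space of the Lefschetz classes on `Z`, `T.M Z` is the `ℓ`-adic cohomology of
`Y × Z` in even degrees, `S.hodge Z` is the set of the absolute Hodge classes, `S.Lef Z` is the set of
the Lefschetz classes on the reduction of `Y × Z`, `S.num Z x c` is the intersection number `x · c_ℓ`,
`S.corr Z Z'` is the set of the rational Lefschetz classes on `Z × Z'`, and `e` is the projector of the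
motive `M`. Here `S.rational Z` is the set of the absolute Hodge classes with rational intersection
numbers, `corrRank e` is the rank of the motive, `dimOn C Z` is the dimension of `C Z`, and `pw X m` is
the product of `m + 1` copies of `X`. -/
theorem result (C : Family W) (hC : IsRingFamily C) (T : CorrData W) (hT : T.IsFunctor C)
    (S : PairingData T) (hS : S.IsCompatible C) (X : 𝒱.Obj)
    (hX : ∀ n, IsNondeg C (pw X n)) (m : ℕ) (e : W.H ((pw X m).prod (pw X m)))
    (he : Has C e) (hee : composite W e e = e) (hirr : IrreducibleIn (Has C) e) :
    (∀ c : T.M (pw X m), c ∈ S.hodge (pw X m) →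
      T.act e c ∈ Submodule.span W.K (S.rational (pw X m))) ∨
    ∀ n : ℕ, IndepMod (S.hodge (pw X n)) (Submodule.span W.K (S.rational (pw X n)))
      (rankBound (corrRank e) (totalBetti W X) (dimOn C (pw X n)) m n) :=
  Pool.Agent.X312.CQ.pairing_law hC hT S hS X hX he hee hirr

end Pool.Agent.Results.MP_0abd54_ag.RationalityGapLaw
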